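import Pool.Agent.V5helper32.CM.Stm

/-!
# Job DIM of project CM (MP_c89606_al)

A dimension inequality for prime ideals: both quotients are integral over a polynomial ring.
-/

set_option autoImplicit false

open MvPolynomial

namespace V5helper13.CMDIM

/-- Dimension does not grow under integral extensions. -/
theorem dim_le_of_integral {A B : Type} [CommRing A] [CommRing B] (f : A →+* B)
    (hf : f.IsIntegral) : ringKrullDim B ≤ ringKrullDim A := by
  letI : Algebra A B := f.toAlgebra
  haveI : Algebra.IsIntegral A B := ⟨hf⟩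
  refine Order.krullDim_le_of_strictMono (fun I : PrimeSpectrum B => PrimeSpectrum.comap f I) ?_
  intro I J hIJ
  have h : I.asIdeal < J.asIdeal := hIJ
  have := Ideal.IsIntegral.comap_lt_comap (R := A) h
  exact this

/-- Dimension does not drop under injective integral extensions. -/
theorem dim_ge_of_integral {A B : Type} [CommRing A] [CommRing B] (f : A →+* B)
    (hf : f.IsIntegral) (hinj : Function.Injective f) : ringKrullDim A ≤ ringKrullDim B := by
  letI : Algebra A B := f.toAlgebra
  haveI : Algebra.IsIntegral A B := ⟨hf⟩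
  unfold ringKrullDim Order.krullDim
  refine iSup_le fun l => ?_
  have hker : (⊥ : Ideal B).comap (algebraMap A B) ≤ l.head.asIdeal := by
    have : RingHom.ker (algebraMap A B) = ⊥ := (RingHom.injective_iff_ker_eq_bot _).1 hinj
    change RingHom.ker (algebraMap A B) ≤ _
    rw [this]; exact bot_le
  obtain ⟨P, -, hP, hPo⟩ := Ideal.exists_ideal_over_prime_of_isIntegral l.head.asIdeal ⊥ hker
  haveI : P.LiesOver l.head.asIdeal := ⟨hPo.symm⟩
  obtain ⟨L, hL, -, -⟩ := Ideal.exists_ltSeries_of_hasGoingUp (S := B) l P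
  exact le_trans (by rw [hL]) (le_iSup (fun p : LTSeries (PrimeSpectrum B) => (p.length : WithBot ℕ∞)) L)

/-- **Job DIM**. -/
theorem t_DIM : Pool.Agent.V5helper32.CM.S_DIM := by
  intro Z _ _ r a Q q hQ hq hint hinj
  have key : ∀ I : Ideal Z, (Q ⊓ q ≤ I) → ((Ideal.Quotient.mk I).comp a.toRingHom).IsIntegral := by
    intro I hI y
    obtain ⟨z, rfl⟩ := Ideal.Quotient.mk_surjective y
    obtain ⟨f, hf, hz⟩ := hint z
    refine ⟨f, hf, ?_⟩
    have h0 : Ideal.Quotient.mk I (Polynomial.eval₂ a.toRingHom z f) = 0 :=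
      Ideal.Quotient.eq_zero_iff_mem.2 (hI hz)
    rwa [Polynomial.hom_eval₂] at h0
  have h1 := dim_le_of_integral _ (key Q inf_le_left)
  have h2 := dim_ge_of_integral _ (key q inf_le_right) (by
    rw [injective_iff_map_eq_zero]
    intro b hb
    exact hinj b (Ideal.Quotient.eq_zero_iff_mem.1 hb))
  exact h1.trans h2

end V5helper13.CMDIM
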